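import Pool.Agent.Q75.IS.Stm

/-!
# Project IS of helper75, job AS (monotone sequences with small variance), by helper275
-/

set_option autoImplicit false

open Finset MeasureTheory ProbabilityTheory Filter Topology

namespace Pool.Agent.Q275.IS

open Pool.Agent.Q75.IS

/-- the square of a shift over the square -/
lemma sq_ratio : Tendsto (fun k : ℕ => ((k : ℝ) + 1) ^ 2 / (k : ℝ) ^ 2) atTop (𝓝 1) := by
  have h1 : Tendsto (fun k : ℕ => (1 + 1 / (k : ℝ)) ^ 2) atTop (𝓝 ((1 + 0) ^ 2)) :=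
    (tendsto_const_nhds.add tendsto_one_div_atTop_nhds_zero_nat).pow 2
  rw [add_zero, one_pow] at h1
  refine h1.congr' ?_
  filter_upwards [eventually_gt_atTop 0] with k hk
  have hk' : (k : ℝ) ≠ 0 := by positivity
  field_simp

theorem t_AS : S_AS := by
  intro Ω _ μ _ L f hLm hLb hLmono hvar hf hftop he
  -- monotonicity
  have hLmono' : ∀ m n, m ≤ n → ∀ ω, L m ω ≤ L n ω := fun m n hmn ω =>
    monotone_nat_of_le_succ (f := fun n => L n ω) (fun n => hLmono n ω) hmn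
  have hfmono : ∀ m n, 1 ≤ m → m ≤ n → f m ≤ f n := by
    intro m n hm hmn
    induction n, hmn using Nat.le_induction with
    | base => exact le_rfl
    | succ n hn ih => exact ih.trans (hf n (hm.trans hn)).2.1
  -- the subsequence
  have hex : ∀ k : ℕ, ∃ n, 1 ≤ n ∧ (k : ℝ) ^ 2 ≤ f n := fun k =>
    ((eventually_ge_atTop 1).and (hftop.eventually_ge_atTop _)).exists
  classical
  let n : ℕ → ℕ := fun k => Nat.find (hex k)
  have hn1 : ∀ k : ℕ, 1 ≤ n k := fun k => (Nat.find_spec (hex k)).1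
  have hn2 : ∀ k : ℕ, (k : ℝ) ^ 2 ≤ f (n k) := fun k => (Nat.find_spec (hex k)).2
  have hn3 : ∀ k m : ℕ, 1 ≤ m → (k : ℝ) ^ 2 ≤ f m → n k ≤ m := fun k m h1 h2 =>
    Nat.find_min' (hex k) ⟨h1, h2⟩
  have hn4 : ∀ k m : ℕ, 1 ≤ m → f m < (k : ℝ) ^ 2 → m < n k := by
    intro k m h1 h2
    by_contra hcon
    push Not at hcon
    have := hfmono (n k) m (hn1 k) hcon
    linarith [hn2 k]
  have hntop : Tendsto n atTop atTop := by
    rw [tendsto_atTop]
    intro m
    have h1 : Tendsto (fun k : ℕ => (k : ℝ) ^ 2) atTop atTop :=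
      (tendsto_pow_atTop two_ne_zero).comp tendsto_natCast_atTop_atTop
    filter_upwards [h1.eventually_gt_atTop (f (m + 1))] with k hk
    have := hn4 k (m + 1) (by omega) hk
    omega
  -- `f (n k) / k ^ 2 → 1`
  have hfn : Tendsto (fun k : ℕ => f (n k) / (k : ℝ) ^ 2) atTop (𝓝 1) := by
    have hub : Tendsto (fun k : ℕ => 1 + 1 / ((n k - 1 : ℕ) : ℝ)) atTop (𝓝 (1 + 0)) := by
      refine tendsto_const_nhds.add ?_
      exact tendsto_one_div_atTop_nhds_zero_nat.comp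
        ((tendsto_sub_atTop_nat 1).comp hntop)
    rw [add_zero] at hub
    refine tendsto_of_tendsto_of_tendsto_of_le_of_le' tendsto_const_nhds hub ?_ ?_
    · filter_upwards [eventually_gt_atTop 0] with k hk
      rw [le_div_iff₀ (by positivity), one_mul]
      exact hn2 k
    · filter_upwards [eventually_gt_atTop 0, hntop.eventually_ge_atTop 2] with k hk hk2
      have hm : 1 ≤ n k - 1 := by omega
      have h1 : f (n k - 1) < (k : ℝ) ^ 2 := by
        by_contra hcon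
        push Not at hcon
        have := hn3 k (n k - 1) hm hcon
        omega
      have h2 := (hf (n k - 1) hm).2.2
      have h3 : n k - 1 + 1 = n k := by omega
      rw [h3] at h2
      rw [div_le_iff₀ (by positivity)]
      refine h2.trans ?_
      exact mul_le_mul_of_nonneg_left h1.le (by positivity)
  -- the expectations
  set e : ℕ → ℝ := fun m => ∫ ω, L m ω ∂μ with hedef
  have he0 : ∀ m, 0 ≤ e m := fun m => integral_nonneg fun ω => (hLb m ω).1
  have hen : Tendsto (fun k : ℕ => e (n k) / (k : ℝ) ^ 2) atTop (𝓝 1) := by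
    have h1 := (he.comp hntop).mul hfn
    rw [one_mul] at h1
    refine h1.congr' ?_
    filter_upwards [eventually_gt_atTop 0] with k hk
    have hk' : (0 : ℝ) < (k : ℝ) ^ 2 := by positivity
    have hf0 : f (n k) ≠ 0 := (hk'.trans_le (hn2 k)).ne'
    change e (n k) / f (n k) * (f (n k) / (k : ℝ) ^ 2) = _
    field_simp
  -- the squares
  have hYm : ∀ k : ℕ, Measurable (fun ω => ((L (n k) ω - e (n k)) / (k : ℝ) ^ 2) ^ 2) :=
    fun k => (((hLm _).sub_const _).div_const _).pow_const _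
  have hYI : ∀ k : ℕ, Integrable (fun ω => (L (n k) ω - e (n k)) ^ 2) μ := by
    intro k
    refine Integrable.of_bound (((hLm _).sub_const _).pow_const _).aestronglyMeasurable
      ((n k + e (n k)) ^ 2) (ae_of_all _ fun ω => ?_)
    rw [Real.norm_eq_abs, abs_pow]
    refine pow_le_pow_left₀ (abs_nonneg _) ?_ 2
    have h1 := hLb (n k) ω
    rw [abs_le]
    constructor <;> linarith [he0 (n k), (Nat.cast_nonneg (n k) : (0 : ℝ) ≤ n k)]
  have hlint : ∀ k : ℕ, ∫⁻ ω, ENNReal.ofReal (((L (n k) ω - e (n k)) / (k : ℝ) ^ 2) ^ 2) ∂μ ≤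
      ENNReal.ofReal (e (n k) / (k : ℝ) ^ 4) := by
    intro k
    have h1 : (fun ω => ((L (n k) ω - e (n k)) / (k : ℝ) ^ 2) ^ 2) =
        fun ω => (L (n k) ω - e (n k)) ^ 2 * ((k : ℝ) ^ 4)⁻¹ := by
      funext ω
      rw [div_pow, ← pow_mul, div_eq_mul_inv]
    have h2 : Integrable (fun ω => ((L (n k) ω - e (n k)) / (k : ℝ) ^ 2) ^ 2) μ := by
      rw [h1]
      exact (hYI k).mul_const _
    rw [← ofReal_integral_eq_lintegral_ofReal h2 (ae_of_all _ fun ω => sq_nonneg _), h1,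
      integral_mul_const, ← div_eq_mul_inv]
    refine ENNReal.ofReal_le_ofReal ?_
    exact div_le_div_of_nonneg_right (hvar (n k)) (by positivity)
  have hsum : Summable fun k : ℕ => e (n k) / (k : ℝ) ^ 4 := by
    have h1 : Summable fun k : ℕ => 2 * (1 / (k : ℝ) ^ 2) :=
      (Real.summable_one_div_nat_pow.mpr one_lt_two).mul_left 2
    refine Summable.of_norm_bounded_eventually_nat h1 ?_
    filter_upwards [eventually_gt_atTop 0, hen.eventually_le_const (by norm_num : (1 : ℝ) < 2)]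
      with k hk hk2
    have hk' : (0 : ℝ) < (k : ℝ) ^ 2 := by positivity
    rw [Real.norm_of_nonneg (div_nonneg (he0 _) (by positivity))]
    have h3 : e (n k) / (k : ℝ) ^ 4 = e (n k) / (k : ℝ) ^ 2 * (1 / (k : ℝ) ^ 2) := by
      field_simp
    rw [h3]
    exact mul_le_mul_of_nonneg_right hk2 (by positivity)
  have hfin : (∑' k : ℕ, ∫⁻ ω, ENNReal.ofReal (((L (n k) ω - e (n k)) / (k : ℝ) ^ 2) ^ 2) ∂μ) ≠
      ⊤ := by
    refine ne_top_of_le_ne_top hsum.tsum_ofReal_ne_top ?_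
    exact ENNReal.tsum_le_tsum hlint
  have hfin2 : (∫⁻ ω, ∑' k : ℕ, ENNReal.ofReal (((L (n k) ω - e (n k)) / (k : ℝ) ^ 2) ^ 2) ∂μ) ≠
      ⊤ := by
    rw [lintegral_tsum fun k => (hYm k).ennreal_ofReal.aemeasurable]
    exact hfin
  have hae := ae_lt_top' (AEMeasurable.tsum fun k =>
    (hYm k).ennreal_ofReal.aemeasurable) hfin2
  filter_upwards [hae] with ω hω
  have hY := ENNReal.tendsto_atTop_zero_of_tsum_ne_top hω.ne
  have hY2 : Tendsto (fun k : ℕ => (L (n k) ω - e (n k)) / (k : ℝ) ^ 2) atTop (𝓝 0) := by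
    have h1 : Tendsto (fun k : ℕ => ((L (n k) ω - e (n k)) / (k : ℝ) ^ 2) ^ 2) atTop (𝓝 0) := by
      have h2 := (ENNReal.tendsto_toReal ENNReal.zero_ne_top).comp hY
      refine h2.congr fun k => ?_
      exact ENNReal.toReal_ofReal (sq_nonneg _)
    have h3 := (Real.continuous_sqrt.tendsto 0).comp h1
    rw [Real.sqrt_zero] at h3
    refine (tendsto_zero_iff_abs_tendsto_zero _).mpr (h3.congr fun k => ?_)
    exact Real.sqrt_sq_eq_abs _
  have hA : Tendsto (fun k : ℕ => L (n k) ω / (k : ℝ) ^ 2) atTop (𝓝 1) := by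
    have h1 := hY2.add hen
    rw [zero_add] at h1
    refine h1.congr fun k => ?_
    rw [← add_div, sub_add_cancel]
  -- the index
  have hq : Tendsto (fun m => ⌊√(f m)⌋₊) atTop atTop :=
    tendsto_nat_floor_atTop.comp (Real.tendsto_sqrt_atTop.comp hftop)
  have hlo : Tendsto (fun k : ℕ => L (n k) ω / ((k : ℝ) + 1) ^ 2) atTop (𝓝 1) := by
    have h1 := hA.div sq_ratio one_ne_zero
    rw [div_one] at h1
    refine h1.congr' ?_
    filter_upwards [eventually_gt_atTop 0] with k hk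
    have hk' : (k : ℝ) ≠ 0 := by positivity
    change L (n k) ω / (k : ℝ) ^ 2 / (((k : ℝ) + 1) ^ 2 / (k : ℝ) ^ 2) = _
    field_simp
  have hhi : Tendsto (fun k : ℕ => L (n (k + 1)) ω / (k : ℝ) ^ 2) atTop (𝓝 1) := by
    have h1 := (hA.comp (tendsto_add_atTop_nat 1)).mul sq_ratio
    rw [one_mul] at h1
    refine h1.congr' ?_
    filter_upwards [eventually_gt_atTop 0] with k hk
    have hk' : (k : ℝ) ≠ 0 := by positivity
    have hk2 : (k : ℝ) + 1 ≠ 0 := by positivity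
    change L (n (k + 1)) ω / (((k + 1 : ℕ) : ℝ)) ^ 2 * (((k : ℝ) + 1) ^ 2 / (k : ℝ) ^ 2) = _
    rw [Nat.cast_add, Nat.cast_one]
    field_simp
  refine tendsto_of_tendsto_of_tendsto_of_le_of_le' (hlo.comp hq) (hhi.comp hq) ?_ ?_
  · filter_upwards [eventually_ge_atTop 1, hftop.eventually_ge_atTop 1] with m hm hfm
    have hfm0 : 0 ≤ f m := by linarith
    have h1 : (⌊√(f m)⌋₊ : ℝ) ≤ √(f m) := Nat.floor_le (Real.sqrt_nonneg _)
    have h2 : √(f m) < ⌊√(f m)⌋₊ + 1 := Nat.lt_floor_add_one _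
    have h3 : (⌊√(f m)⌋₊ : ℝ) ^ 2 ≤ f m := by
      calc _ ≤ √(f m) ^ 2 := pow_le_pow_left₀ (Nat.cast_nonneg _) h1 2
        _ = f m := Real.sq_sqrt hfm0
    have h4 : f m ≤ ((⌊√(f m)⌋₊ : ℝ) + 1) ^ 2 := by
      calc f m = √(f m) ^ 2 := (Real.sq_sqrt hfm0).symm
        _ ≤ _ := pow_le_pow_left₀ (Real.sqrt_nonneg _) h2.le 2
    change L (n ⌊√(f m)⌋₊) ω / ((⌊√(f m)⌋₊ : ℝ) + 1) ^ 2 ≤ L m ω / f m
    exact div_le_div₀ (hLb m ω).1 (hLmono' _ _ (hn3 _ m hm h3) ω) (by linarith) h4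
  · filter_upwards [eventually_ge_atTop 1, hftop.eventually_ge_atTop 1] with m hm hfm
    have hfm0 : 0 ≤ f m := by linarith
    have h1 : (⌊√(f m)⌋₊ : ℝ) ≤ √(f m) := Nat.floor_le (Real.sqrt_nonneg _)
    have h2 : √(f m) < ⌊√(f m)⌋₊ + 1 := Nat.lt_floor_add_one _
    have h3 : (⌊√(f m)⌋₊ : ℝ) ^ 2 ≤ f m := by
      calc _ ≤ √(f m) ^ 2 := pow_le_pow_left₀ (Nat.cast_nonneg _) h1 2
        _ = f m := Real.sq_sqrt hfm0
    have h4 : f m < ((⌊√(f m)⌋₊ + 1 : ℕ) : ℝ) ^ 2 := by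
      rw [Nat.cast_add, Nat.cast_one]
      calc f m = √(f m) ^ 2 := (Real.sq_sqrt hfm0).symm
        _ < _ := pow_lt_pow_left₀ h2 (Real.sqrt_nonneg _) two_ne_zero
    have h5 : 1 ≤ ⌊√(f m)⌋₊ := by
      rw [Nat.one_le_floor_iff]
      exact Real.one_le_sqrt.mpr hfm
    have h6 : (0 : ℝ) < (⌊√(f m)⌋₊ : ℝ) ^ 2 := by
      have : (0 : ℝ) < ⌊√(f m)⌋₊ := by exact_mod_cast h5
      positivity
    change L m ω / f m ≤ L (n (⌊√(f m)⌋₊ + 1)) ω / (⌊√(f m)⌋₊ : ℝ) ^ 2
    exact div_le_div₀ (hLb _ ω).1 (hLmono' _ _ (hn4 _ m hm h4).le ω) h6 h3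

end Pool.Agent.Q275.IS
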