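import Pool.Agent.Q75.IS.Stm

/-!
# Project IS of helper75, job FS (finite support), by helper275
-/

set_option autoImplicit false

open Finset MeasureTheory ProbabilityTheory Filter Topology

namespace Pool.Agent.Q275.IS

open Pool.Agent.Q75.IS

/-- an increasing set of positions for the letters of `s`, arbitrarily far away -/
lemma exists_incr (x : ℕ → ℕ) (s : Finset ℕ) (h : ∀ i ∈ s, ∃ᶠ k in atTop, x k = i) :
    ∃ t : Finset ℕ, StrictMonoOn x t ∧ t.card = s.card ∧ ∀ j ∈ t, x j ∈ s := by
  induction s using Finset.induction_on_max with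
  | empty => exact ⟨∅, fun i hi => absurd hi (by simp), rfl, by simp⟩
  | insert a s hmax ih =>
    obtain ⟨t, ht1, ht2, ht3⟩ := ih fun i hi => h i (mem_insert_of_mem hi)
    have h1 := (h a (mem_insert_self a s)).and_eventually
      (eventually_gt_atTop (t.sup id))
    obtain ⟨k, hk1, hk2⟩ := h1.exists
    have hlt : ∀ j ∈ t, j < k := fun j hj => (le_sup (f := id) hj).trans_lt hk2
    have hkt : k ∉ t := fun hk => lt_irrefl k (hlt k hk)
    have hat : a ∉ s := fun ha => lt_irrefl a (hmax a ha)
    refine ⟨insert k t, ?_, ?_, ?_⟩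
    · intro i hi j hj hij
      rw [coe_insert, Set.mem_insert_iff] at hi hj
      rcases hi with hi | hi
      · rcases hj with hj | hj
        · omega
        · have := hlt j hj
          omega
      · rcases hj with hj | hj
        · rw [hj, hk1]
          exact hmax _ (ht3 i hi)
        · exact ht1 hi hj hij
    · rw [card_insert_of_notMem hkt, card_insert_of_notMem hat, ht2]
    · intro j hj
      rcases mem_insert.mp hj with hj | hj
      · rw [hj, hk1]
        exact mem_insert_self _ _
      · exact mem_insert_of_mem (ht3 j hj)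

lemma LIS_eq (x : ℕ → ℕ) (s : Finset ℕ) (h1 : ∀ k, x k ∈ s)
    (h : ∀ i ∈ s, ∃ᶠ k in atTop, x k = i) : ∀ᶠ n in atTop, LIS x n = s.card := by
  obtain ⟨t, ht1, ht2, -⟩ := exists_incr x s h
  filter_upwards [eventually_gt_atTop (t.sup id)] with n hn
  have hb : ∀ k ∈ {k : ℕ | ∃ s : Finset ℕ, s ⊆ range n ∧ StrictMonoOn x s ∧ s.card = k},
      k ≤ s.card := by
    rintro k ⟨u, -, hu, rfl⟩
    rw [← card_image_of_injOn hu.injOn]
    exact card_le_card fun y hy => by
      obtain ⟨j, -, rfl⟩ := mem_image.mp hy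
      exact h1 j
  have hm : s.card ∈ {k : ℕ | ∃ s : Finset ℕ, s ⊆ range n ∧ StrictMonoOn x s ∧ s.card = k} :=
    ⟨t, fun j hj => mem_range.mpr ((le_sup (f := id) hj).trans_lt hn), ht1, ht2⟩
  exact le_antisymm (csSup_le ⟨_, hm⟩ hb) (le_csSup ⟨s.card, hb⟩ hm)

theorem t_FS : S_FS := by
  intro Ω _ μ _ X p hS s hs
  have hsup : ∀ᵐ ω ∂μ, ∀ k, X k ω ∈ s := by
    rw [ae_all_iff]
    intro k
    have h1 : ∀ᵐ ω ∂μ, ∀ i, i ∉ s → X k ω ≠ i := by
      rw [ae_all_iff]
      intro i
      by_cases hi : i ∈ s
      · exact ae_of_all _ fun ω h => absurd hi h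
      · have hp : p i = 0 := by
          have h2 : ¬ 0 < p i := fun h => hi (by
            have : i ∈ {i | 0 < p i} := h
            rw [hs] at this
            exact this)
          exact le_antisymm (not_lt.mp h2) (hS.nonneg i)
        have h3 : μ (X k ⁻¹' {i}) = 0 := by
          have := hS.law k i
          rwa [hp, measureReal_eq_zero_iff] at this
        have h4 : ∀ᵐ ω ∂μ, ω ∉ X k ⁻¹' {i} := measure_eq_zero_iff_ae_notMem.mp h3
        filter_upwards [h4] with ω hω _ h5
        exact hω h5
    filter_upwards [h1] with ω hω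
    by_contra hcon
    exact hω _ hcon rfl
  have hinf0 : ∀ i ∈ s, ∀ᵐ ω ∂μ, ∃ᶠ k in atTop, X k ω = i := by
    intro i hi
    have hp : 0 < p i := by
      have : i ∈ {i | 0 < p i} := by
        rw [hs]
        exact hi
      exact this
    have hms : ∀ k, MeasurableSet (X k ⁻¹' {i}) := fun k => hS.meas k (measurableSet_singleton i)
    have hind : iIndepSet (fun k => X k ⁻¹' {i}) μ := by
      rw [iIndepSet_iff_meas_biInter hms]
      intro S
      exact hS.indep.measure_inter_preimage_eq_mul S fun _ _ => measurableSet_singleton i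
    have hval : ∀ k, μ (X k ⁻¹' {i}) = ENNReal.ofReal (p i) := by
      intro k
      rw [← hS.law k i, ofReal_measureReal]
    have hsum : (∑' k, μ (X k ⁻¹' {i})) = ⊤ := by
      simp only [hval]
      refine ENNReal.tsum_const_eq_top_of_ne_zero ?_
      rw [Ne, ENNReal.ofReal_eq_zero, not_le]
      exact hp
    have h1 := measure_limsup_eq_one hms hind hsum
    have h2 : ∀ᵐ ω ∂μ, ω ∈ limsup (fun k => X k ⁻¹' {i}) atTop := by
      rw [← mem_ae_iff_prob_eq_one₀] at h1
      · exact h1
      · exact (MeasurableSet.measurableSet_limsup hms).nullMeasurableSet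
    filter_upwards [h2] with ω hω
    rw [mem_limsup_iff_frequently_mem] at hω
    exact hω
  have hinf : ∀ᵐ ω ∂μ, ∀ i ∈ s, ∃ᶠ k in atTop, X k ω = i := by
    have h0 : ∀ᵐ ω ∂μ, ∀ i, i ∈ s → ∃ᶠ k in atTop, X k ω = i := by
      rw [ae_all_iff]
      intro i
      by_cases hi : i ∈ s
      swap
      · exact ae_of_all _ fun ω h => absurd h hi
      filter_upwards [hinf0 i hi] with ω hω _
      exact hω
    exact h0
  filter_upwards [hsup, hinf] with ω h1 h2
  exact LIS_eq _ s h1 h2

end Pool.Agent.Q275.IS
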